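import Mathlib

/-!
# Hermite diagonal operators with real-rooted coefficients: definitions and statements of the rows
-/

set_option autoImplicit false

namespace Pool.Agent.Helper31.FPH

open Polynomial Filter

/-- zero or only real zeros -/
def RR (p : ℝ[X]) : Prop := p = 0 ∨ ∀ z : ℂ, aeval z p = 0 → z.im = 0

/-- classical multiplier sequence -/
def MS (γ : ℕ → ℝ) : Prop := ∀ p : ℝ[X], RR p →
  RR (∑ n ∈ Finset.range (p.natDegree + 1), C (γ n * p.coeff n) * X ^ n)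

/-- Hermite polynomial (physicists, up to a constant) -/
noncomputable def Hp (n : ℕ) : ℝ[X] :=
  ((Polynomial.hermite n).map (Int.castRingHom ℝ)).comp (C (Real.sqrt 2) * X)

/-- Jensen polynomial -/
noncomputable def Jn (γ : ℕ → ℝ) (k : ℕ) : ℝ[X] :=
  ∑ i ∈ Finset.range (k + 1), C ((k.choose i : ℝ) * γ i) * X ^ i

/-- the same, homogeneous -/
noncomputable def Jh (γ : ℕ → ℝ) (k : ℕ) (a b : ℝ) : ℝ :=
  ∑ i ∈ Finset.range (k + 1), (k.choose i : ℝ) * γ i * a ^ i * b ^ (k - i)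

/-- the functional `w ^ n ↦ γ n` -/
noncomputable def Lf (γ : ℕ → ℝ) : ℝ[X] →ₗ[ℝ] ℝ :=
  Polynomial.lsum (fun n => (γ n) • (LinearMap.id : ℝ →ₗ[ℝ] ℝ))

/-- `A_{k,r} = L ((w - 1)^(k-r) (w + 1)^r)` -/
noncomputable def A (γ : ℕ → ℝ) (k r : ℕ) : ℝ := Lf γ ((X - 1) ^ (k - r) * (X + 1) ^ r)

/-- the coefficients of the operator -/
noncomputable def Qf (γ : ℕ → ℝ) (k : ℕ) : ℝ[X] :=
  ∑ r ∈ Finset.range (k / 2 + 1),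
    C ((-1 / 4) ^ r / ((r.factorial : ℝ) * ((k - 2 * r).factorial : ℝ)) * A γ k r) *
      X ^ (k - 2 * r)

/-- the operator -/
noncomputable def Top (γ : ℕ → ℝ) (f : ℝ[X]) : ℝ[X] :=
  ∑ k ∈ Finset.range (f.natDegree + 1), Qf γ k * (⇑Polynomial.derivative)^[k] f

/-- nonnegative sequences with real-rooted Jensen polynomials -/
def JM (γ : ℕ → ℝ) : Prop := (∀ n, 0 ≤ γ n) ∧ ∀ k, RR (Jn γ k)

/-- factorization of the homogeneous Jensen polynomial -/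
def Fac (γ : ℕ → ℝ) (k : ℕ) (c : ℝ) (κ : Fin k → ℝ) : Prop :=
  0 ≤ c ∧ (∀ l, 0 ≤ κ l ∧ κ l ≤ 1) ∧
    ∀ a b : ℝ, Jh γ k a b = c * ∏ l, ((1 - κ l) * b + κ l * a)

/-- number of `l` with `κ l < 1/2` -/
noncomputable def cnt {k : ℕ} (κ : Fin k → ℝ) : ℕ := (Finset.univ.filter (fun l => κ l < 1 / 2)).card

/-- the functional `P ↦ (∏ (β + κ D)) P (1)` of a list of pairs `(β, κ)` -/
noncomputable def Ld : List (ℝ × ℝ) → ℝ[X] → ℝ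
  | [], P => P.eval 1
  | q :: l, P => Ld l (C q.1 * P + C q.2 * derivative P)

/-- its sequence -/
noncomputable def gl (l : List (ℝ × ℝ)) (n : ℕ) : ℝ := Ld l (X ^ n)

/-- `S_[] = 1`, `S_(q :: l) = q.1 S_l + q.2 t (X S_l - S_l' / 2)` -/
noncomputable def Sl (t : ℂ) : List (ℝ × ℝ) → ℂ[X]
  | [] => 1
  | q :: l => C (q.1 : ℂ) * Sl t l + C ((q.2 : ℂ) * t) * (X * Sl t l - C (1 / 2) * derivative (Sl t l))

/-- the coefficients `Q_k` of the list, `t`-coefficients of `S (x - t / 2)` -/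
noncomputable def Qd : List (ℝ × ℝ) → ℕ → ℝ[X]
  | [], k => if k = 0 then 1 else 0
  | q :: l, 0 => C q.1 * Qd l 0
  | q :: l, 1 => C q.1 * Qd l 1 + C q.2 * (X * Qd l 0 - C (1 / 2) * derivative (Qd l 0))
  | q :: l, (k + 2) => C q.1 * Qd l (k + 2) +
      C q.2 * (X * Qd l (k + 1) - C (1 / 2) * Qd l k - C (1 / 2) * derivative (Qd l (k + 1)))

/-! ### rows: the operator -/

/-- TLN: `Top γ` does not depend on the length of the sum, is additive and homogeneous -/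
def ST_TLN : Prop := ∀ γ : ℕ → ℝ,
  (∀ (f : ℝ[X]) (N : ℕ), f.natDegree < N →
    Top γ f = ∑ k ∈ Finset.range N, Qf γ k * (⇑Polynomial.derivative)^[k] f) ∧
  (∀ f g, Top γ (f + g) = Top γ f + Top γ g) ∧ ∀ (c : ℝ) (f : ℝ[X]), Top γ (c • f) = c • Top γ f

/-- EIG: eigenvectors. By linearity in `γ` one may prove it for `γ = (w^n)` (coefficients of
polynomials in `w`): then `∑ Q_k D^k f = (exp (((1 - w^2) / 4) D^2) f) (w x)` and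
`Hp n = c exp (- D^2 / 4) x^n`; or by recurrences. -/
def ST_EIG : Prop := ∀ (γ : ℕ → ℝ) (n : ℕ), Top γ (Hp n) = γ n • Hp n

/-- UNI: uniqueness (the `Hp n` have degree `n`, so they span) -/
def ST_UNI : Prop := ∀ (T : ℝ[X] →ₗ[ℝ] ℝ[X]) (γ : ℕ → ℝ), (∀ n, T (Hp n) = γ n • Hp n) →
  ∀ f, T f = Top γ f

/-- QUN: uniqueness of the coefficients (induction on `k`, test on `X ^ k`) -/
def ST_QUN : Prop := ∀ Q Q' : ℕ → ℝ[X], (∀ f : ℝ[X],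
  ∑ k ∈ Finset.range (f.natDegree + 1), Q k * (⇑Polynomial.derivative)^[k] f =
    ∑ k ∈ Finset.range (f.natDegree + 1), Q' k * (⇑Polynomial.derivative)^[k] f) → Q = Q'

/-! ### rows: multiplier sequences -/

/-- SGN: signs. `x^n - x^(n+2)` gives `γ n γ (n+2) ≥ 0`; `Jn γ k` (image of `(1+x)^k`) real-rooted:
no internal zeros. -/
def ST_SGN : Prop := ∀ γ : ℕ → ℝ, MS γ → (∀ n, 0 ≤ γ n) ∨ (∀ n, γ n ≤ 0) ∨
  (∀ n, 0 ≤ (-1) ^ n * γ n) ∨ ∀ n, (-1) ^ n * γ n ≤ 0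

/-- MSC: constant multiples and alternation; Jensen polynomials -/
def ST_MSC : Prop := ∀ γ : ℕ → ℝ, MS γ → MS (fun n => -γ n) ∧ MS (fun n => (-1) ^ n * γ n) ∧
  ∀ k, RR (Jn γ k)

/-- FAC: factorization (`Jn γ k` splits, its roots are `≤ 0`; a root `-u` gives the factor
`(b u + a) / (1 + u)`, i.e. `κ = 1 / (1 + u)`; missing degree gives `κ = 0`) -/
def ST_FAC : Prop := ∀ γ : ℕ → ℝ, JM γ → ∀ k, ∃ (c : ℝ) (κ : Fin k → ℝ), Fac γ k c κ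

/-- SC: coherence. `Qf γ k = x^e q(x^2)`, all roots of `q` are real and `≥ 0`, so the coefficients
of `q` alternate (weakly). -/
def ST_SC : Prop := ∀ (γ : ℕ → ℝ) (k : ℕ), RR (Qf γ k) →
  (∀ r, r ≤ k / 2 → 0 ≤ A γ k r) ∨ ∀ r, r ≤ k / 2 → A γ k r ≤ 0

/-- ALT: alternation of the sequence reverses `A` -/
def ST_ALT : Prop := ∀ (γ : ℕ → ℝ) (k r : ℕ), r ≤ k →
  A (fun n => (-1) ^ n * γ n) k r = (-1) ^ k * A γ k (k - r)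

/-- WID: `∑ C(k,r) A_{k,r} y^r = L (((w-1) + y (w+1))^k) = Jh (1 + y, y - 1)` -/
def ST_WID : Prop := ∀ (γ : ℕ → ℝ) (k : ℕ) (y : ℝ),
  ∑ r ∈ Finset.range (k + 1), (k.choose r : ℝ) * A γ k r * y ^ r = Jh γ k (1 + y) (y - 1)

/-- HALF (from WID): Descartes (`Mathlib.Algebra.Polynomial.RuleOfSigns`,
`roots_countP_pos_le_signVariations`) for `∑ C(k,r) A_{k,r} y^r = c ∏ (y + 2 κ l - 1)` -/
def ST_HALF : Prop := ∀ (γ : ℕ → ℝ) (k : ℕ) (c : ℝ) (κ : Fin k → ℝ), Fac γ k c κ → 0 < c →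
  ((∀ r, r ≤ k / 2 → 0 ≤ A γ k r) ∨ (∀ r, r ≤ k / 2 → A γ k r ≤ 0) ∨
    (∀ r, k - k / 2 ≤ r → r ≤ k → 0 ≤ A γ k r) ∨
    (∀ r, k - k / 2 ≤ r → r ≤ k → A γ k r ≤ 0)) → cnt κ ≤ k - k / 2

/-- LC: log-concavity and no internal zeros (derivatives of the Jensen polynomial are
real-rooted; `n` derivatives of `Jn γ (n+2)` give `γ n + 2 γ (n+1) x + γ (n+2) x^2`, and of
`Jn γ (n+3)` a cubic) -/
def ST_LC : Prop := ∀ γ : ℕ → ℝ, JM γ → (∀ n, γ n * γ (n + 2) ≤ γ (n + 1) ^ 2) ∧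
  ∀ n, 0 < γ n → γ (n + 1) = 0 → ∀ m, n < m → γ m = 0

/-- CON (concentration). `r n = γ (n+1) / γ n` decreases to `σ ≥ 0`; `θ = σ / (1 + σ)`. Weighted
AM-GM: `κ^θ (1-κ)^(1-θ) ≤ μ = θ^θ (1-θ)^(1-θ)`, and `≤ μ' < μ` if `|κ - θ| ≥ ε`. From `Fac` at
`(1, 0)`, `(0, 1)`, `(1, 1)`: `γ k^θ γ 0^(1-θ) = c ∏ κ^θ (1-κ)^(1-θ) ≤ c μ^(k-p) μ'^p`,
`γ k ≥ γ 0 σ^k` and `c = ∑ C(k,i) γ i ≤ C (1 + ρ)^k` for every `ρ > σ`;
`σ^θ = μ (1 + σ)`. So `(μ/μ')^p ≤ C' ((1 + ρ) / (1 + σ))^k`. -/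
def ST_CON : Prop := ∀ γ : ℕ → ℝ, JM γ → (∀ n, 0 < γ n) → ∃ θ : ℝ, 0 ≤ θ ∧ θ < 1 ∧
  ∀ ε : ℝ, 0 < ε → ∃ N : ℕ, ∀ (k : ℕ) (c : ℝ) (κ : Fin k → ℝ), N ≤ k → Fac γ k c κ →
    ((Finset.univ.filter (fun l => ε ≤ |κ l - θ|)).card : ℝ) ≤ ε * k

/-- POL (polarization): compare the coefficients of `z^k` in
`Jh γ m (z a) (z b + 1) = c ∏ ((1 - κ) + z ((1 - κ) b + κ a))` -/
def ST_POL : Prop := ∀ (γ : ℕ → ℝ) (m : ℕ) (c : ℝ) (κ : Fin m → ℝ), Fac γ m c κ →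
  ∀ k, k ≤ m → ∀ a b : ℝ, (m.choose k : ℝ) * Jh γ k a b =
    c * ∑ S ∈ Finset.powersetCard k Finset.univ,
      (∏ l ∈ S, ((1 - κ l) * b + κ l * a)) * ∏ l ∈ Sᶜ, (1 - κ l)

/-- VA (from POL): for `-1 < x < 0`: a term of POL at `(1, x)` with a factor
`(1 - κ) x + κ < 0` is at least `-` (the term of `S` without that `l`, level `k - 1`, at `(1,1)`,
where all factors are `1`), since `|(1 - κ) x + κ| ≤ 1 - κ` for such `l` and `≤ 1` for all. So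
`Jh γ k 1 x ≥ - B (k / (m - k + 1)) Jh γ (k-1) 1 1`, `B = #{l : κ l < 1/2 - ε}` with
`1/2 - ε = |x| / (1 + |x|)`; `m → ∞`. -/
def ST_VA : Prop := ∀ γ : ℕ → ℝ, JM γ →
  (∀ ε : ℝ, 0 < ε → ∃ N : ℕ, ∀ m, N ≤ m → ∃ (c : ℝ) (κ : Fin m → ℝ), Fac γ m c κ ∧
    ((Finset.univ.filter (fun l => κ l < 1 / 2 - ε)).card : ℝ) ≤ ε * m) →
  ∀ (k : ℕ) (x : ℝ), -1 < x → x < 0 → 0 ≤ Jh γ k 1 x

/-- VB: from the signs to `1/2 ≤ κ`: `d/dx Jh γ k 1 x = k Jh γ (k-1) 1 x ≥ 0` on `(-1, 0)`; a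
`κ l < 1/2` gives a zero `x0 = -κ/(1-κ)` in `(-1, 0]`, so `Jh γ k 1 x = 0` on `(-1, x0)`, and the
polynomial would vanish. -/
def ST_VB : Prop := ∀ γ : ℕ → ℝ, (∀ (k : ℕ) (x : ℝ), -1 < x → x < 0 → 0 ≤ Jh γ k 1 x) →
  ∀ (k : ℕ) (c : ℝ) (κ : Fin k → ℝ), Fac γ k c κ → 0 < c → ∀ l, 1 / 2 ≤ κ l

/-- NN (from FAC, CON, VA, VB): positive sequences. If `θ < 1/2` the hypothesis fails for large
`k` (`0 < c` since `c = Jh γ k 1 1 > 0`). -/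
def ST_NN : Prop := ∀ γ : ℕ → ℝ, JM γ → (∀ n, 0 < γ n) →
  (∃ N : ℕ, ∀ (k : ℕ) (c : ℝ) (κ : Fin k → ℝ), N ≤ k → Fac γ k c κ → 3 * cnt κ ≤ 2 * k) →
  ∀ k, ∃ (c : ℝ) (κ : Fin k → ℝ), Fac γ k c κ ∧ ∀ l, 1 / 2 ≤ κ l

/-- RED (from FAC, LC, NN): all sequences. Let `n0` be the first index with `γ n0 > 0`. If
`γ n = 0` for some `n > n0` then all later ones vanish and `k - n` of the `κ` are `0`:
contradiction for large `k`. Otherwise `π j = γ (n0 + j) / (γ n0 C(n0 + j, n0))` is positive and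
`Jh γ (n0 + j) a b = C(n0 + j, n0) γ n0 a^n0 Jh π j a b`: `Fac` for `π` and `Fac` for `γ` differ
by `n0` entries `κ = 1`. -/
def ST_RED : Prop := ∀ γ : ℕ → ℝ, JM γ →
  (∀ (k : ℕ) (c : ℝ) (κ : Fin k → ℝ), Fac γ k c κ → 0 < c → cnt κ ≤ k - k / 2) →
  ∀ k, ∃ (c : ℝ) (κ : Fin k → ℝ), Fac γ k c κ ∧ ∀ l, 1 / 2 ≤ κ l

/-! ### rows: stability -/

/-- SB: zeros of `S`. `Im (S'/S) ≤ 0` for `Im X > 0`, so `Y = X - S'/(2S)` has `Im Y > 0` and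
`β + κ t Y ≠ 0` for `Im t ≤ 0`, `β > 0`, `κ ≥ 0`. -/
def ST_SB : Prop := ∀ (l : List (ℝ × ℝ)), (∀ q ∈ l, 0 < q.1 ∧ 0 ≤ q.2) → ∀ t : ℂ, t.im ≤ 0 →
  ∀ x : ℂ, 0 < x.im → (Sl t l).eval x ≠ 0

/-- GL: Gauss-Lucas: `Im (R'/R) ≥ 0` for `Im t ≤ 0` -/
def ST_GL : Prop := ∀ (R : ℂ[X]) (c : ℂ), 0 < c.im → (∀ t : ℂ, t.im ≤ 0 → R.eval t ≠ 0) →
  ∀ t : ℂ, t.im ≤ 0 → (derivative R + C c * R).eval t ≠ 0

/-- TAY: `f (x + d/dt) R (0) = ∑ f^(k)(x) [t^k] R`, `f = ∏ (X - a)` -/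
def ST_TAY : Prop := ∀ (as : List ℝ) (x : ℂ) (R : ℂ[X]),
  (as.foldr (fun a P => derivative P + C (x - (a : ℂ)) * P) R).eval 0 =
    ∑ k ∈ Finset.range (as.length + 1), R.coeff k *
      aeval x ((⇑Polynomial.derivative)^[k] ((as.map (fun a => X - C a)).prod : ℝ[X]))

/-- RX: `S (x - t / 2)` as a polynomial in `t` with the coefficients `Qd` -/
def ST_RX : Prop := ∀ (l : List (ℝ × ℝ)) (x : ℂ), ∃ R : ℂ[X],
  (∀ t : ℂ, R.eval t = (Sl t l).eval (x - t / 2)) ∧ ∀ k, R.coeff k = aeval x (Qd l k)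

/-- ID: `Qf (gl l) k = Qd l k`. Induction on `l`: `A_new k r = β A k r + κ ((k-r) A (k-1) r +
r A (k-1) (r-1))` and `A (k-1) r = A (k-1) (r-1) + 2 A (k-2) (r-1)`. -/
def ST_ID : Prop := ∀ (l : List (ℝ × ℝ)) (k : ℕ), Qf (gl l) k = Qd l k

/-- STF (from SB, GL, TAY, RX, ID): `β > 0` (a real-rooted `f` is `c ∏ (X - a)`) -/
def ST_STF : Prop := ∀ (l : List (ℝ × ℝ)), (∀ q ∈ l, 0 < q.1 ∧ 0 ≤ q.2) →
  ∀ f : ℝ[X], RR f → RR (Top (gl l) f)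

/-- CLO: closure. A real-rooted `q` satisfies `‖q (x + i y')‖ ≤ ‖q (x + i y)‖` for
`|y'| ≤ |y|`; this passes to the limit. -/
def ST_CLO : Prop := ∀ (d : ℕ) (p : ℕ → ℝ[X]) (q : ℝ[X]), (∀ j, (p j).natDegree ≤ d) →
  (∀ i, Tendsto (fun j => (p j).coeff i) atTop (nhds (q.coeff i))) → (∀ j, RR (p j)) → RR q

/-- TCO: continuity of `Top` in the sequence -/
def ST_TCO : Prop := ∀ (g : ℕ → ℕ → ℝ) (γ : ℕ → ℝ) (f : ℝ[X]),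
  (∀ n, Tendsto (fun j => g j n) atTop (nhds (γ n))) →
  (∃ d, ∀ j, (Top (g j) f).natDegree ≤ d) ∧
  ∀ i, Tendsto (fun j => (Top (g j) f).coeff i) atTop (nhds ((Top γ f).coeff i))

/-- S0 (from STF, CLO, TCO): `β ≥ 0` (use `β + 1/(j+1)`) -/
def ST_S0 : Prop := ∀ (l : List (ℝ × ℝ)), (∀ q ∈ l, 0 ≤ q.1 ∧ 0 ≤ q.2) →
  ∀ f : ℝ[X], RR f → RR (Top (gl l) f)

/-- LIM: the list `(1 - κ l, (2 κ l - 1) / k)` times `c` has the sequence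
`∑_i C(n,i) C(k,i) i! k^(-i) Δ^i γ 0`, which tends to `γ n` -/
def ST_LIM : Prop := ∀ γ : ℕ → ℝ, (∀ k, ∃ (c : ℝ) (κ : Fin k → ℝ), Fac γ k c κ ∧
    ∀ l, 1 / 2 ≤ κ l) → ∃ (c : ℕ → ℝ) (L : ℕ → List (ℝ × ℝ)),
  (∀ k, 0 ≤ c k ∧ ∀ q ∈ L k, 0 ≤ q.1 ∧ 0 ≤ q.2) ∧
  ∀ n, Tendsto (fun k => c k * gl (L k) n) atTop (nhds (γ n))

/-- HPF (from S0, CLO, TCO, LIM) -/
def ST_HPF : Prop := ∀ γ : ℕ → ℝ, (∀ k, ∃ (c : ℝ) (κ : Fin k → ℝ), Fac γ k c κ ∧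
    ∀ l, 1 / 2 ≤ κ l) → ∀ f : ℝ[X], RR f → RR (Top γ f)

/-- FIN: everything -/
def ST_FIN : Prop := ∀ (γ : ℕ → ℝ), MS γ → (∀ k, RR (Qf γ k)) → ∀ f : ℝ[X], RR f → RR (Top γ f)

end Pool.Agent.Helper31.FPH
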